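import Mathlib
import Pool.Agent.N852.EL.Stm

/-!
Project EL (helper852), part D: separated sets in sets which meet all linear subspaces.
-/

namespace Pool.Agent.N31.EL

open Pool.Agent.N852.EL
open Finset

/-- A maximal separated subset of a finite set. -/
lemma exists_sep {α : Type*} [PseudoMetricSpace α] [DecidableEq α] (S : Finset α) {δ : ℝ}
    (hδ : 0 < δ) : ∃ P ⊆ S, (∀ x ∈ P, ∀ y ∈ P, x ≠ y → δ ≤ dist x y) ∧
      ∀ x ∈ S, ∃ q ∈ P, dist x q < δ := by
  induction S using Finset.induction_on with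
  | empty => exact ⟨∅, by simp, by simp, by simp⟩
  | insert a S _ ih =>
    obtain ⟨P, hPS, h1, h2⟩ := ih
    by_cases h : ∃ q ∈ P, dist a q < δ
    · refine ⟨P, hPS.trans (Finset.subset_insert _ _), h1, ?_⟩
      intro x hx
      rcases Finset.mem_insert.1 hx with rfl | hx
      · exact h
      · exact h2 x hx
    · push Not at h
      refine ⟨insert a P, Finset.insert_subset_insert _ hPS, ?_, ?_⟩
      · intro x hx y hy hxy
        rcases Finset.mem_insert.1 hx with hx' | hx'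
        · rcases Finset.mem_insert.1 hy with hy' | hy'
          · exact absurd (hx'.trans hy'.symm) hxy
          · rw [hx']; exact h y hy'
        · rcases Finset.mem_insert.1 hy with hy' | hy'
          · rw [dist_comm, hy']; exact h x hx'
          · exact h1 x hx' y hy' hxy
      · intro x hx
        rcases Finset.mem_insert.1 hx with rfl | hx
        · exact ⟨x, Finset.mem_insert_self _ _, by simpa using hδ⟩
        · obtain ⟨q, hq, hd⟩ := h2 x hx
          exact ⟨q, Finset.mem_insert_of_mem hq, hd⟩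

/-- The grid. -/
abbrev G (M : ℕ) : Type := Fin M × Fin M

/-- The complex number of a grid point. -/
noncomputable def gz {M : ℕ} (g : G M) : ℂ := ⟨(g.1 : ℕ) / M, (g.2 : ℕ) / M⟩

lemma gz_re {M : ℕ} (g : G M) : (gz g).re = (g.1 : ℕ) / M := rfl
lemma gz_im {M : ℕ} (g : G M) : (gz g).im = (g.2 : ℕ) / M := rfl

lemma gz_norm {M : ℕ} (g : G M) : ‖gz g‖ ≤ 2 := by
  have hM : (0 : ℝ) < M := by
    have := g.1.2
    have : 0 < M := by omega
    exact_mod_cast this
  have h1 : |(gz g).re| ≤ 1 := by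
    rw [gz_re, abs_of_nonneg (by positivity), div_le_one hM]
    exact_mod_cast g.1.2.le
  have h2 : |(gz g).im| ≤ 1 := by
    rw [gz_im, abs_of_nonneg (by positivity), div_le_one hM]
    exact_mod_cast g.2.2.le
  have := Complex.norm_le_abs_re_add_abs_im (gz g)
  linarith

lemma one_le_norm {M : ℕ} (g : G M) : 1 ≤ ‖1 + gz g‖ := by
  have h := Complex.abs_re_le_norm (1 + gz g)
  have h1 : (1 + gz g).re = 1 + (g.1 : ℕ) / M := by simp [gz_re]
  rw [h1, abs_of_nonneg (by positivity)] at h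
  have : (0 : ℝ) ≤ (g.1 : ℕ) / M := by positivity
  linarith

lemma norm_le_three {M : ℕ} (g : G M) : ‖1 + gz g‖ ≤ 3 := by
  have := norm_add_le (1 : ℂ) (gz g)
  have h2 := gz_norm g
  rw [norm_one] at this
  linarith

/-- The integer offset of a grid point from a complex number. -/
noncomputable def off {M : ℕ} (g : G M) (ξ : ℂ) : ℤ × ℤ :=
  ((g.1 : ℕ) + ⌊-(M * ξ.re)⌋, (g.2 : ℕ) + ⌊-(M * ξ.im)⌋)

lemma off_inj {M : ℕ} {g g' : G M} {ξ : ℂ} (h : off g ξ = off g' ξ) : g = g' := by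
  unfold off at h
  have h1 := congrArg Prod.fst h
  have h2 := congrArg Prod.snd h
  simp only at h1 h2
  ext
  · have : ((g.1 : ℕ) : ℤ) = (g'.1 : ℕ) := by linarith
    exact_mod_cast this
  · have : ((g.2 : ℕ) : ℤ) = (g'.2 : ℕ) := by linarith
    exact_mod_cast this

lemma off_aux {M : ℕ} (a : ℕ) (x R μ : ℝ) (hM0 : (0 : ℝ) < M) (hμ : 0 < μ)
    (hM : (M : ℝ) ≤ 2 * μ) (N : ℕ) (hN : 2 * R + 1 ≤ N)
    (h : |(a : ℝ) / M - x| ≤ R / μ) :
    -(N : ℤ) ≤ (a : ℤ) + ⌊-(M * x)⌋ ∧ (a : ℤ) + ⌊-(M * x)⌋ ≤ (N : ℤ) := by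
  have h1 : |(a : ℝ) - M * x| ≤ 2 * R := by
    have : (a : ℝ) - M * x = M * ((a : ℝ) / M - x) := by field_simp
    rw [this, abs_mul, abs_of_pos hM0]
    calc (M : ℝ) * |(a : ℝ) / M - x| ≤ (2 * μ) * (R / μ) := by
          apply mul_le_mul hM h (abs_nonneg _) (by positivity)
      _ = 2 * R := by field_simp
  have h2 := abs_le.1 h1
  have h3 := Int.floor_le (-(M * x))
  have h4 := Int.lt_floor_add_one (-(M * x))
  constructor
  · have : (-(N : ℝ)) ≤ (a : ℝ) + (⌊-(M * x)⌋ : ℝ) := by linarith [h2.1]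
    exact_mod_cast this
  · have : (a : ℝ) + (⌊-(M * x)⌋ : ℝ) ≤ (N : ℝ) := by linarith [h2.2]
    exact_mod_cast this

/-- The box of offsets. -/
noncomputable def bx (N : ℕ) : Finset (ℤ × ℤ) := Icc (-(N : ℤ)) N ×ˢ Icc (-(N : ℤ)) N

lemma bx_card (N : ℕ) : (bx N).card = (2 * N + 1) ^ 2 := by
  unfold bx
  rw [card_product, Int.card_Icc, sq]
  have : ((N : ℤ) + 1 - (-(N : ℤ))).toNat = 2 * N + 1 := by omega
  rw [this]

lemma off_mem {M : ℕ} (g : G M) (ξ : ℂ) (R μ : ℝ) (hμ : 0 < μ)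
    (hM : (M : ℝ) ≤ 2 * μ) (N : ℕ) (hN : 2 * R + 1 ≤ N)
    (h : ‖gz g - ξ‖ ≤ R / μ) : off g ξ ∈ bx N := by
  have hM0 : (0 : ℝ) < M := by
    have := g.1.2
    have : 0 < M := by omega
    exact_mod_cast this
  unfold off bx
  simp only [mem_product, mem_Icc]
  have h1 : |((g.1 : ℕ) : ℝ) / M - ξ.re| ≤ R / μ := by
    have := (Complex.abs_re_le_norm (gz g - ξ)).trans h
    simpa [gz_re] using this
  have h2 : |((g.2 : ℕ) : ℝ) / M - ξ.im| ≤ R / μ := by
    have := (Complex.abs_im_le_norm (gz g - ξ)).trans h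
    simpa [gz_im] using this
  exact ⟨off_aux _ _ _ _ hM0 hμ hM N hN h1, off_aux _ _ _ _ hM0 hμ hM N hN h2⟩

/-- The columns which are free. -/
abbrev Q (r n : ℕ) : Type := {l : Fin n // r ≤ (l : ℕ)}

lemma Q_card (r n : ℕ) : Fintype.card (Q r n) = n - r := by
  rw [Fintype.card_subtype]
  have h1 := Finset.card_filter_add_card_filter_not (s := (univ : Finset (Fin n)))
    (fun i : Fin n => (i : ℕ) < r)
  rw [Fin.card_filter_val_lt, Finset.card_univ, Fintype.card_fin] at h1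
  have h2 : (univ.filter fun x : Fin n => r ≤ (x : ℕ)) =
      univ.filter fun x : Fin n => ¬ (x : ℕ) < r := by
    ext x; simp
  rw [h2]; omega

/-- The matrix of a grid datum. -/
noncomputable def mA {M r n : ℕ} (a : Fin r → Q r n → G M) : Fin r → Fin n → ℂ :=
  fun j l => if h : r ≤ (l : ℕ) then gz (a j ⟨l, h⟩) else 0

lemma lc_low {r n : ℕ} (hrn : r ≤ n) (A : Fin r → Fin n → ℂ) (z : Fin r → ℂ) (j : Fin r) :
    lc A z (Fin.castLE hrn j) = z j := by
  unfold lc gr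
  rw [Finset.sum_eq_single j]
  · simp
  · intro i _ hi
    have : ¬ ((j : ℕ) = i) := fun h => hi (Fin.ext h.symm)
    simp [this]
  · simp

lemma lc_high {M r n : ℕ} (a : Fin r → Q r n → G M) (z : Fin r → ℂ) (l : Q r n) :
    lc (mA a) z l.1 = ∑ j, z j * gz (a j l) := by
  unfold lc gr mA
  refine Finset.sum_congr rfl fun j _ => ?_
  have : ¬ ((l.1 : ℕ) < r) := not_lt.2 l.2
  simp [this, l.2]

lemma lc_norm {M r n : ℕ} (hr : 1 ≤ r) (hrn : r ≤ n) (a : Fin r → Q r n → G M) (z : Fin r → ℂ)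
    (hz : ∀ i, ‖z i‖ ≤ 1) : ‖lc (mA a) z‖ ≤ 2 * r := by
  have hr' : (1 : ℝ) ≤ r := by exact_mod_cast hr
  rw [pi_norm_le_iff_of_nonneg (by positivity)]
  intro l
  by_cases h : r ≤ (l : ℕ)
  · rw [show l = (⟨l, h⟩ : Q r n).1 from rfl, lc_high]
    calc ‖∑ j, z j * gz (a j ⟨l, h⟩)‖ ≤ ∑ j : Fin r, ‖z j * gz (a j ⟨l, h⟩)‖ := norm_sum_le _ _
      _ ≤ ∑ j : Fin r, (2 : ℝ) := by
          refine Finset.sum_le_sum fun j _ => ?_
          rw [norm_mul]
          calc ‖z j‖ * ‖gz (a j ⟨l, h⟩)‖ ≤ 1 * 2 :=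
                mul_le_mul (hz j) (gz_norm _) (norm_nonneg _) (by norm_num)
            _ = 2 := by norm_num
      _ = 2 * r := by simp [mul_comm]
  · push Not at h
    have : l = Fin.castLE hrn ⟨l, h⟩ := by ext; simp
    rw [this, lc_low]
    have := hz ⟨l, h⟩
    linarith

/-- The grid data. -/
abbrev Dt {T : Type} (M : ℕ) (n r : T → ℕ) : Type :=
  ∀ t, (Fin (r t) → Q (r t) (n t) → G M) × G M

lemma lc_smul {r n : ℕ} (A : Fin r → Fin n → ℂ) (c : ℂ) (z : Fin r → ℂ) :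
    lc A (c • z) = c • lc A z := by
  funext l
  simp only [lc, Pi.smul_apply, smul_eq_mul, Finset.mul_sum]
  exact Finset.sum_congr rfl fun j _ => by ring

lemma exists_pt {T : Type} [Fintype T] {n r : T → ℕ} (hr : ∀ t, 1 ≤ r t)
    (W : Set (∀ t, Fin (n t) → ℂ))
    (hW1 : ∀ x ∈ W, ∀ a : T → ℂ, (∀ t, a t ≠ 0) → (fun t => a t • x t) ∈ W)
    (hW2 : ∀ A : ∀ t, Fin (r t) → Fin (n t) → ℂ, ∃ z : ∀ t, Fin (r t) → ℂ, (∀ t, z t ≠ 0) ∧
      (fun t => lc (A t) (z t)) ∈ W) {M : ℕ} (e : Dt M n r) :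
    ∃ (x : ∀ t, Fin (n t) → ℂ) (j : ∀ t, Fin (r t)) (w : ∀ t, Fin (r t) → ℂ), x ∈ W ∧
      ∀ t, w t (j t) = 1 ∧ (∀ i, ‖w t i‖ ≤ 1) ∧
        x t = (1 + gz (e t).2) • lc (mA (e t).1) (w t) := by
  obtain ⟨z, hz0, hzW⟩ := hW2 (fun t => mA (e t).1)
  have hj : ∀ t, ∃ j : Fin (r t), z t j ≠ 0 ∧ ∀ i, ‖z t i‖ ≤ ‖z t j‖ := by
    intro t
    have : Nonempty (Fin (r t)) := ⟨⟨0, hr t⟩⟩
    obtain ⟨j, hj⟩ := Finite.exists_max (fun i => ‖z t i‖)
    refine ⟨j, ?_, hj⟩
    intro h0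
    apply hz0 t
    funext i
    have := hj i
    rw [h0, norm_zero] at this
    simpa using this
  choose j hj0 hj1 using hj
  refine ⟨fun t => ((1 + gz (e t).2) / z t (j t)) • lc (mA (e t).1) (z t), j,
    fun t => (z t (j t))⁻¹ • z t, ?_, ?_⟩
  · refine hW1 _ hzW (fun t => (1 + gz (e t).2) / z t (j t)) fun t => ?_
    refine div_ne_zero ?_ (hj0 t)
    intro h
    have := one_le_norm (e t).2
    rw [h, norm_zero] at this
    linarith
  · intro t
    refine ⟨?_, ?_, ?_⟩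
    · simp [inv_mul_cancel₀ (hj0 t)]
    · intro i
      have h0 : 0 < ‖z t (j t)‖ := norm_pos_iff.2 (hj0 t)
      simp only [Pi.smul_apply, smul_eq_mul, norm_mul, norm_inv]
      rw [inv_mul_le_iff₀ h0, mul_one]
      exact hj1 t i
    · rw [lc_smul, smul_smul]; simp only [div_eq_mul_inv]

lemma lin_est {r n M : ℕ} (hr : 1 ≤ r) (hrn : r ≤ n) {μ : ℝ} (hμ : 0 < μ)
    (a : Fin r → Q r n → G M) (g : G M) (q : Fin n → ℂ) (j : Fin r) (w : Fin r → ℂ)
    (hw : w j = 1) (h : ‖(1 + gz g) • lc (mA a) w - q‖ < 1 / μ) :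
    ‖gz g - (q (Fin.castLE hrn j) - 1)‖ ≤ 2 * r / μ ∧
    ∀ l : Q r n, ‖gz (a j l) - (q l.1 - ∑ i : {i // i ≠ j}, q (Fin.castLE hrn i.1) *
      gz (a i.1 l)) / (1 + gz g)‖ ≤ 2 * r / μ := by
  have hr' : (1 : ℝ) ≤ r := by exact_mod_cast hr
  have hlow : ∀ i, ‖(1 + gz g) * w i - q (Fin.castLE hrn i)‖ ≤ 1 / μ := by
    intro i
    have := (norm_le_pi_norm ((1 + gz g) • lc (mA a) w - q) (Fin.castLE hrn i)).trans h.le
    simpa [lc_low hrn] using this
  have hhigh : ∀ l : Q r n, ‖(1 + gz g) * (∑ i, w i * gz (a i l)) - q l.1‖ ≤ 1 / μ := by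
    intro l
    have := (norm_le_pi_norm ((1 + gz g) • lc (mA a) w - q) l.1).trans h.le
    simpa [lc_high] using this
  constructor
  · have := hlow j
    rw [hw, mul_one] at this
    calc ‖gz g - (q (Fin.castLE hrn j) - 1)‖ = ‖1 + gz g - q (Fin.castLE hrn j)‖ := by
          congr 1; ring
      _ ≤ 1 / μ := this
      _ ≤ 2 * r / μ := by
          apply div_le_div_of_nonneg_right _ hμ.le
          linarith
  · intro l
    set c := 1 + gz g with hc
    have hc1 : 1 ≤ ‖c‖ := one_le_norm g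
    have hc0 : c ≠ 0 := by
      intro h0
      rw [h0, norm_zero] at hc1
      linarith
    have hsum : ∑ i, w i * gz (a i l) = gz (a j l) + ∑ i : {i // i ≠ j}, w i.1 * gz (a i.1 l) := by
      rw [Fintype.sum_eq_add_sum_subtype_ne (fun i => w i * gz (a i l)) j, hw, one_mul]
    set ξ := (q l.1 - ∑ i : {i // i ≠ j}, q (Fin.castLE hrn i.1) * gz (a i.1 l)) / c with hξ
    have hcξ : c * ξ = q l.1 - ∑ i : {i // i ≠ j}, q (Fin.castLE hrn i.1) * gz (a i.1 l) := by
      rw [hξ]; field_simp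
    have key : c * (gz (a j l) - ξ) = (c * (∑ i, w i * gz (a i l)) - q l.1) -
        ∑ i : {i // i ≠ j}, (c * w i.1 - q (Fin.castLE hrn i.1)) * gz (a i.1 l) := by
      rw [mul_sub, hcξ, hsum]
      simp only [sub_mul, Finset.sum_sub_distrib, mul_add, Finset.mul_sum]
      ring_nf
    have hcard : (Fintype.card {i : Fin r // i ≠ j} : ℝ) ≤ r - 1 := by
      have : Fintype.card {i : Fin r // i ≠ j} = r - 1 := by
        simp [Fintype.card_subtype_compl]
      rw [this, Nat.cast_sub hr]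
      simp
    have hb : ‖c * (gz (a j l) - ξ)‖ ≤ 2 * r / μ := by
      rw [key]
      calc _ ≤ ‖c * (∑ i, w i * gz (a i l)) - q l.1‖ +
            ‖∑ i : {i // i ≠ j}, (c * w i.1 - q (Fin.castLE hrn i.1)) * gz (a i.1 l)‖ :=
            norm_sub_le _ _
        _ ≤ 1 / μ + ∑ i : {i // i ≠ j}, (1 / μ) * 2 := by
            refine add_le_add (hhigh l) ((norm_sum_le _ _).trans
              (Finset.sum_le_sum fun i _ => ?_))
            rw [norm_mul]
            exact mul_le_mul (hlow i.1) (gz_norm _) (norm_nonneg _) (by positivity)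
        _ ≤ 1 / μ + (r - 1) * ((1 / μ) * 2) := by
            rw [Finset.sum_const, Finset.card_univ, nsmul_eq_mul]
            have : (0 : ℝ) ≤ (1 / μ) * 2 := by positivity
            nlinarith
        _ = (2 * r - 1) / μ := by ring
        _ ≤ 2 * r / μ := by
            apply div_le_div_of_nonneg_right _ hμ.le
            linarith
    calc ‖gz (a j l) - ξ‖ = 1 * ‖gz (a j l) - ξ‖ := (one_mul _).symm
      _ ≤ ‖c‖ * ‖gz (a j l) - ξ‖ := by gcongr
      _ = ‖c * (gz (a j l) - ξ)‖ := (norm_mul _ _).symm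
      _ ≤ 2 * r / μ := hb

/-- The number of offsets. -/
def ko (r : ℕ) : ℕ := (2 * (4 * r + 1) + 1) ^ 2

/-- The coding of the data in a fibre. -/
noncomputable def cod {T : Type} {n r : T → ℕ} (hrn : ∀ t, r t ≤ n t) {M : ℕ}
    (q : ∀ t, Fin (n t) → ℂ) (j : ∀ t, Fin (r t)) (e : Dt M n r) :
    ∀ t, (ℤ × ℤ) × (({i : Fin (r t) // i ≠ j t} → Q (r t) (n t) → G M) ×
      (Q (r t) (n t) → ℤ × ℤ)) :=
  fun t => (off (e t).2 (q t (Fin.castLE (hrn t) (j t)) - 1), (fun i => (e t).1 i.1,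
    fun l => off ((e t).1 (j t) l) ((q t l.1 - ∑ i : {i // i ≠ j t},
      q t (Fin.castLE (hrn t) i.1) * gz ((e t).1 i.1 l)) / (1 + gz (e t).2))))

lemma cod_inj {T : Type} {n r : T → ℕ} (hrn : ∀ t, r t ≤ n t) {M : ℕ}
    (q : ∀ t, Fin (n t) → ℂ) (j : ∀ t, Fin (r t)) :
    Function.Injective (cod hrn (M := M) q j) := by
  intro e e' h
  funext t
  have ht := congrFun h t
  unfold cod at ht
  have h1 := off_inj (congrArg (fun y => y.1) ht)
  have h2 := congrArg (fun y => y.2.1) ht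
  have h3 := congrArg (fun y => y.2.2) ht
  simp only at h2 h3
  have h4 : ∀ i, i ≠ j t → (e t).1 i = (e' t).1 i := fun i hi => congrFun h2 ⟨i, hi⟩
  have h5 : (e t).1 (j t) = (e' t).1 (j t) := by
    funext l
    have h6 := congrFun h3 l
    have h7 : (∑ i : {i // i ≠ j t}, q t (Fin.castLE (hrn t) i.1) * gz ((e t).1 i.1 l)) =
        ∑ i : {i // i ≠ j t}, q t (Fin.castLE (hrn t) i.1) * gz ((e' t).1 i.1 l) :=
      Finset.sum_congr rfl fun i _ => by rw [h4 i.1 i.2]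
    rw [h7, h1] at h6
    exact off_inj h6
  refine Prod.ext (funext fun i => ?_) h1
  by_cases hi : i = j t
  · rw [hi]; exact h5
  · exact h4 i hi

lemma fib {T : Type} [Fintype T] [DecidableEq T] {n r : T → ℕ} (hr : ∀ t, 1 ≤ r t)
    (hrn : ∀ t, r t ≤ n t) {M : ℕ} {μ : ℝ} (hμ : 0 < μ) (hM : (M : ℝ) ≤ 2 * μ)
    (q : ∀ t, Fin (n t) → ℂ) (j : ∀ t, Fin (r t)) (F : Finset (Dt M n r))
    (hF : ∀ e ∈ F, ∃ w : ∀ t, Fin (r t) → ℂ, ∀ t, w t (j t) = 1 ∧
      ‖(1 + gz (e t).2) • lc (mA (e t).1) (w t) - q t‖ < 1 / μ) :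
    F.card ≤ ∏ t, (ko (r t) * (((M * M) ^ (n t - r t)) ^ (r t - 1) *
      ko (r t) ^ (n t - r t))) := by
  have h1 : F.card ≤ (Fintype.piFinset fun t => bx (4 * r t + 1) ×ˢ
      ((univ : Finset ({i : Fin (r t) // i ≠ j t} → Q (r t) (n t) → G M)) ×ˢ
        Fintype.piFinset fun _ : Q (r t) (n t) => bx (4 * r t + 1))).card := by
    refine Finset.card_le_card_of_injOn (cod hrn q j) ?_ ((cod_inj hrn q j).injOn)
    intro e he
    obtain ⟨w, hw⟩ := hF e he
    simp only [Fintype.coe_piFinset, Set.mem_pi, Set.mem_univ, forall_const, mem_coe,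
      mem_product, mem_univ, true_and, Fintype.mem_piFinset]
    intro t
    obtain ⟨h2, h3⟩ := lin_est (hr t) (hrn t) hμ (e t).1 (e t).2 (q t) (j t) (w t)
      (hw t).1 (hw t).2
    have hN : 2 * (2 * (r t : ℝ)) + 1 ≤ ((4 * r t + 1 : ℕ) : ℝ) := by
      push_cast; linarith
    exact ⟨off_mem _ _ _ _ hμ hM _ hN h2, fun l => off_mem _ _ _ _ hμ hM _ hN (h3 l)⟩
  refine h1.trans (le_of_eq ?_)
  rw [Fintype.card_piFinset]
  refine Finset.prod_congr rfl fun t _ => ?_
  rw [card_product, card_product, Fintype.card_piFinset]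
  simp only [bx_card, Finset.card_univ, Finset.prod_const, Fintype.card_fun, Q_card,
    Fintype.card_prod, Fintype.card_fin, ko]
  have : Fintype.card {i : Fin (r t) // i ≠ j t} = r t - 1 := by
    simp [Fintype.card_subtype_compl]
  rw [this]

theorem sepLowP : SepLowP := by
  classical
  intro T _ n r hr hrn
  set K : ℝ := ∏ t, ((r t : ℝ) * (ko (r t) * (ko (r t) : ℝ) ^ (n t - r t))) with hK
  have hko : ∀ r, (0 : ℝ) < ko r := by
    intro r; unfold ko; positivity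
  have hK0 : 0 < K := by
    refine Finset.prod_pos fun t _ => ?_
    have := hko (r t)
    have h2 : (0 : ℝ) < r t := by exact_mod_cast hr t
    positivity
  refine ⟨1 / K, 6 * ∑ t, (r t : ℝ) + 1, by positivity, ?_, ?_⟩
  · have : (0 : ℝ) ≤ ∑ t, (r t : ℝ) := Finset.sum_nonneg fun t _ => by positivity
    linarith
  intro W hW1 hW2 μ hμ
  have hμ0 : 0 < μ := by linarith
  set M : ℕ := ⌈μ⌉₊ with hMdef
  have hM1 : μ ≤ M := Nat.le_ceil μ
  have hM2 : (M : ℝ) ≤ 2 * μ := by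
    have := (Nat.ceil_lt_add_one hμ0.le).le
    linarith
  have hM0 : 0 < M := by
    have : (0 : ℝ) < M := lt_of_lt_of_le hμ0 hM1
    exact_mod_cast this
  have hpt := fun e : Dt M n r => exists_pt hr W hW1 hW2 e
  choose p J w hpW hp using hpt
  obtain ⟨P, hPS, hsep, hcov⟩ := exists_sep (Finset.univ.image p) (δ := 1 / μ) (by positivity)
  refine ⟨P, ?_, hsep, ?_⟩
  · intro x hx
    obtain ⟨e, -, rfl⟩ := Finset.mem_image.1 (hPS hx)
    refine ⟨hpW e, fun t => ⟨?_, ?_⟩⟩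
    · have h1 := norm_le_pi_norm (p e t) (Fin.castLE (hrn t) (J e t))
      rw [(hp e t).2.2] at h1 ⊢
      simp only [Pi.smul_apply, lc_low, (hp e t).1, smul_eq_mul, mul_one] at h1
      exact (one_le_norm (e t).2).trans h1
    · rw [(hp e t).2.2, norm_smul]
      have h1 := lc_norm (hr t) (hrn t) (e t).1 (w e t) (hp e t).2.1
      have h2 := norm_le_three (e t).2
      have h3 : (r t : ℝ) ≤ ∑ t, (r t : ℝ) :=
        Finset.single_le_sum (f := fun t => (r t : ℝ)) (fun i _ => by positivity)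
          (Finset.mem_univ t)
      calc ‖1 + gz (e t).2‖ * ‖lc (mA (e t).1) (w e t)‖ ≤ 3 * (2 * r t) :=
            mul_le_mul h2 h1 (norm_nonneg _) (by norm_num)
        _ ≤ 6 * ∑ t, (r t : ℝ) + 1 := by linarith
  · have hq : ∀ e : Dt M n r, ∃ q ∈ P, dist (p e) q < 1 / μ := fun e =>
      hcov _ (Finset.mem_image_of_mem _ (Finset.mem_univ e))
    choose qs hqs1 hqs2 using hq
    have hcard : (Finset.univ : Finset (Dt M n r)).card ≤
        (∏ t, (ko (r t) * (((M * M) ^ (n t - r t)) ^ (r t - 1) * ko (r t) ^ (n t - r t)))) *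
          (P ×ˢ (Finset.univ : Finset (∀ t, Fin (r t)))).card := by
      refine Finset.card_le_mul_card_image_of_maps_to (f := fun e => (qs e, J e)) ?_ _ ?_
      · intro e _
        exact Finset.mem_product.2 ⟨hqs1 e, Finset.mem_univ _⟩
      · rintro ⟨q, j⟩ _
        refine fib hr hrn hμ0 hM2 q j _ ?_
        intro e he
        obtain ⟨h1, h2⟩ := Prod.ext_iff.1 (Finset.mem_filter.1 he).2
        simp only at h1 h2
        subst h1 h2
        refine ⟨w e, fun t => ⟨(hp e t).1, ?_⟩⟩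
        rw [← (hp e t).2.2]
        have h3 := hqs2 e
        rw [dist_pi_lt_iff (by positivity)] at h3
        have := h3 t
        rwa [dist_eq_norm] at this
    have hD : (Finset.univ : Finset (Dt M n r)).card =
        ∏ t, (((M * M) ^ (n t - r t)) ^ (r t) * (M * M)) := by
      rw [Finset.card_univ, Fintype.card_pi]
      refine Finset.prod_congr rfl fun t _ => ?_
      simp only [Fintype.card_prod, Fintype.card_fun, Fintype.card_fin, Q_card]
    rw [hD, Finset.card_product, Finset.card_univ, Fintype.card_pi] at hcard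
    simp only [Fintype.card_fin] at hcard
    have hcR : (∏ t, ((((M : ℝ) * M) ^ (n t - r t)) ^ (r t) * (M * M))) ≤
        (∏ t, ((ko (r t) : ℝ) * ((((M : ℝ) * M) ^ (n t - r t)) ^ (r t - 1) *
          (ko (r t) : ℝ) ^ (n t - r t)))) * (P.card * ∏ t, (r t : ℝ)) := by
      exact_mod_cast hcard
    have hsplit : (∏ t, ((((M : ℝ) * M) ^ (n t - r t)) ^ (r t) * (M * M))) =
        (∏ t, (((M : ℝ) * M) ^ (n t - r t)) ^ (r t - 1)) *
          ((M : ℝ) * M) ^ (∑ t, (n t - r t + 1)) := by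
      rw [← Finset.prod_pow_eq_pow_sum, ← Finset.prod_mul_distrib]
      refine Finset.prod_congr rfl fun t _ => ?_
      have : r t = (r t - 1) + 1 := (Nat.sub_add_cancel (hr t)).symm
      conv_lhs => rw [this]
      rw [pow_succ (((M : ℝ) * M) ^ (n t - ((r t - 1) + 1)))]
      rw [← this, pow_succ ((M : ℝ) * M)]
      ring
    have hsplit2 : (∏ t, ((ko (r t) : ℝ) * ((((M : ℝ) * M) ^ (n t - r t)) ^ (r t - 1) *
          (ko (r t) : ℝ) ^ (n t - r t)))) * (P.card * ∏ t, (r t : ℝ)) =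
        (∏ t, (((M : ℝ) * M) ^ (n t - r t)) ^ (r t - 1)) * (K * P.card) := by
      rw [hK]
      simp only [Finset.prod_mul_distrib]
      ring
    rw [hsplit, hsplit2] at hcR
    have hA : 0 < ∏ t, (((M : ℝ) * M) ^ (n t - r t)) ^ (r t - 1) := by
      refine Finset.prod_pos fun t _ => ?_
      have : (0 : ℝ) < M := by exact_mod_cast hM0
      positivity
    have hfin := le_of_mul_le_mul_left hcR hA
    have hmu : μ ^ (2 * ∑ t, (n t - r t + 1)) ≤ ((M : ℝ) * M) ^ (∑ t, (n t - r t + 1)) := by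
      rw [pow_mul]
      apply pow_le_pow_left₀ (by positivity)
      nlinarith
    rw [one_div, inv_mul_le_iff₀ hK0]
    exact hmu.trans hfin

end Pool.Agent.N31.EL
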